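import Pool.Agent.Helper46.NU.Names

/-! # MP_1fe1ca_lc: closure lemmas for definable predicates -/

noncomputable section

namespace NU

open Pool.Agent.Helper97.Ku

namespace Dfn

theorem mem (i j : ℕ) : Dfn (fun _ E w => E (w i) (w j)) (fun _ _ w => (w i).mem (w j)) :=
  ⟨.mem i j, fun _ _ _ => Iff.rfl, fun _ _ _ => rfl⟩

theorem eq (i j : ℕ) : Dfn (fun _ _ w => w i = w j) (fun _ _ w => (w i).eq (w j)) :=
  ⟨.eq i j, fun _ _ _ => Iff.rfl, fun _ _ _ => rfl⟩

variable {P Q : ∀ N : Type 1, (N → N → Prop) → (ℕ → N) → Prop}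
  {V W : ∀ (L : Type) [CompleteBooleanAlgebra L], (ℕ → BSet L) → L}

theorem congr (h : Dfn P V) (hP : ∀ N E w, P N E w ↔ Q N E w) (hV : ∀ L [CompleteBooleanAlgebra L]
    (w : ℕ → BSet L), V L w = W L w) : Dfn Q W := by
  obtain ⟨φ, h1, h2⟩ := h
  exact ⟨φ, fun N E w => (h1 N E w).trans (hP N E w), fun L _ w => (h2 L w).trans (hV L w)⟩

theorem neg (h : Dfn P V) : Dfn (fun N E w => ¬ P N E w) (fun L _ w => (V L w)ᶜ) := by
  obtain ⟨φ, h1, h2⟩ := h
  exact ⟨.neg φ, fun N E w => not_congr (h1 N E w), fun L _ w => congrArg _ (h2 L w)⟩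

theorem and (h : Dfn P V) (k : Dfn Q W) :
    Dfn (fun N E w => P N E w ∧ Q N E w) (fun L _ w => V L w ⊓ W L w) := by
  obtain ⟨φ, h1, h2⟩ := h
  obtain ⟨ψ, k1, k2⟩ := k
  exact ⟨.and φ ψ, fun N E w => and_congr (h1 N E w) (k1 N E w),
    fun L _ w => congrArg₂ _ (h2 L w) (k2 L w)⟩

theorem all (i : ℕ) (h : Dfn P V) : Dfn (fun N E w => ∀ x, P N E (Function.update w i x))
    (fun L _ w => ⨅ x : BSet L, V L (Function.update w i x)) := by
  obtain ⟨φ, h1, h2⟩ := h
  exact ⟨.all i φ, fun N E w => forall_congr' fun x => h1 N E _,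
    fun L _ w => iInf_congr fun x => h2 L _⟩

theorem imp (h : Dfn P V) (k : Dfn Q W) :
    Dfn (fun N E w => P N E w → Q N E w) (fun L _ w => V L w ⇨ W L w) :=
  congr (neg (and h (neg k))) (fun N E w => by simp) (fun L _ w => by
    rw [himp_eq, compl_inf, compl_compl, sup_comm])

theorem or (h : Dfn P V) (k : Dfn Q W) :
    Dfn (fun N E w => P N E w ∨ Q N E w) (fun L _ w => V L w ⊔ W L w) :=
  congr (neg (and (neg h) (neg k))) (fun N E w => by
    rw [not_and_or, not_not, not_not]) (fun L _ w => by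
    rw [compl_inf, compl_compl, compl_compl])

theorem iff (h : Dfn P V) (k : Dfn Q W) :
    Dfn (fun N E w => (P N E w ↔ Q N E w)) (fun L _ w => iffV (V L w) (W L w)) :=
  congr (and (imp h k) (imp k h)) (fun N E w => iff_iff_implies_and_implies.symm)
    (fun L _ w => rfl)

theorem ex (i : ℕ) (h : Dfn P V) : Dfn (fun N E w => ∃ x, P N E (Function.update w i x))
    (fun L _ w => ⨆ x : BSet L, V L (Function.update w i x)) :=
  congr (neg (all i (neg h))) (fun N E w => by simp) (fun L _ w => by
    rw [compl_iInf]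
    exact iSup_congr fun x => compl_compl _)

/-! Basic predicates; `r` is a fresh variable. -/

theorem sub (i j r : ℕ) (hi : i ≠ r) (hj : j ≠ r) :
    Dfn (fun _ E w => Sub E (w i) (w j)) (fun _ _ w => subV (w i) (w j)) :=
  congr (all r (imp (mem r i) (mem r j)))
    (fun N E w => by simp [Sub, Function.update_of_ne hi, Function.update_of_ne hj])
    (fun L _ w => by simp [subV, Function.update_of_ne hi, Function.update_of_ne hj])

theorem lst (i j r : ℕ) (hi : i ≠ r) (hj : j ≠ r) :
    Dfn (fun _ E w => Lst E (w i) (w j)) (fun _ _ w => lstV (w i) (w j)) :=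
  congr (and (mem j i) (all r (imp (mem r i) (or (mem r j) (eq r j)))))
    (fun N E w => by simp [Lst, Function.update_of_ne hi, Function.update_of_ne hj])
    (fun L _ w => by simp [lstV, Function.update_of_ne hi, Function.update_of_ne hj])

theorem agb (i j k r : ℕ) (hi : i ≠ r) (hj : j ≠ r) (hk : k ≠ r) :
    Dfn (fun _ E w => AgB E (w i) (w j) (w k)) (fun _ _ w => agbV (w i) (w j) (w k)) :=
  congr (all r (imp (mem r i) (iff (mem r j) (mem r k))))
    (fun N E w => by
      simp [AgB, Function.update_of_ne hi, Function.update_of_ne hj, Function.update_of_ne hk])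
    (fun L _ w => by
      simp [agbV, Function.update_of_ne hi, Function.update_of_ne hj, Function.update_of_ne hk])

theorem suc (i j r : ℕ) (hi : i ≠ r) (hj : j ≠ r) :
    Dfn (fun _ E w => Suc E (w i) (w j)) (fun _ _ w => sucV (w i) (w j)) :=
  congr (all r (iff (mem r i) (or (mem r j) (eq r j))))
    (fun N E w => by simp [Suc, Function.update_of_ne hi, Function.update_of_ne hj])
    (fun L _ w => by simp [sucV, Function.update_of_ne hi, Function.update_of_ne hj])

/-- `t`, `s` are different fresh variables. -/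
theorem pr (i j k t s : ℕ) (ts : t ≠ s) (hi : i ≠ t) (hj : j ≠ t) (hk : k ≠ t) (hj' : j ≠ s)
    (hk' : k ≠ s) :
    Dfn (fun _ E w => IsPr E (w i) (w j) (w k)) (fun _ _ w => prV (w i) (w j) (w k)) :=
  congr (all t (iff (mem t i) (or (all s (iff (mem s t) (eq s j)))
      (all s (iff (mem s t) (or (eq s j) (eq s k)))))))
    (fun N E w => by
      simp [IsPr, Function.update_of_ne hi, Function.update_of_ne hj, Function.update_of_ne hk,
        Function.update_of_ne hj', Function.update_of_ne hk', Function.update_of_ne ts])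
    (fun L _ w => by
      simp [prV, Function.update_of_ne hi, Function.update_of_ne hj, Function.update_of_ne hk,
        Function.update_of_ne hj', Function.update_of_ne hk', Function.update_of_ne ts])

/-- `z`, `t`, `s` are different fresh variables. -/
theorem ap (i j k z t s : ℕ) (zt : z ≠ t) (zs : z ≠ s) (ts : t ≠ s) (hi : i ≠ z) (hj : j ≠ z)
    (hk : k ≠ z) (hj' : j ≠ t) (hk' : k ≠ t) (hj'' : j ≠ s) (hk'' : k ≠ s) :
    Dfn (fun _ E w => Ap E (w i) (w j) (w k)) (fun _ _ w => apV (w i) (w j) (w k)) :=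
  congr (ex z (and (mem z i) (pr z j k t s ts zt hj' hk' hj'' hk'')))
    (fun N E w => by
      simp [Ap, Function.update_of_ne hi, Function.update_of_ne hj, Function.update_of_ne hk])
    (fun L _ w => by
      simp [apV, Function.update_of_ne hi, Function.update_of_ne hj, Function.update_of_ne hk])

end Dfn

end NU
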