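import Pool.Agent.Helper46.NU.Goals1
import Pool.Agent.Helper6.NU.EHOM

/-! # Packet DM1 -/

open MeasureTheory Filter Topology Set
open scoped ENNReal

noncomputable section

namespace NU.PkDM1

open NU

theorem meas_bit (m : ℕ) (b : Bool) : MeasurableSet {y : ℕ → Bool | y m = b} :=
  (measurable_pi_apply m : Measurable fun y : ℕ → Bool => y m) (measurableSet_singleton b)

theorem meas_bitiff (m : ℕ) (P : Prop) : MeasurableSet {y : ℕ → Bool | y m = true ↔ P} := by
  by_cases h : P
  · have : {y : ℕ → Bool | y m = true ↔ P} = {y | y m = true} := by ext y; simp [h]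
    rw [this]; exact meas_bit m true
  · have : {y : ℕ → Bool | y m = true ↔ P} = {y | y m = false} := by
      ext y; simp [h]
    rw [this]; exact meas_bit m false

theorem meas_below (l : ℕ) (u : Finset ℕ) :
    MeasurableSet {y : ℕ → Bool | ∀ m < l, (y m = true ↔ m ∈ u)} := by
  have : {y : ℕ → Bool | ∀ m < l, (y m = true ↔ m ∈ u)} =
      ⋂ m, ⋂ _ : m < l, {y | y m = true ↔ m ∈ u} := by
    ext y; simp
  rw [this]
  exact MeasurableSet.iInter fun m => MeasurableSet.iInter fun _ => meas_bitiff m _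

theorem meas_cyl (t : Finset ℕ) : MeasurableSet {y : ℕ → Bool | Cyl t y} := by
  have : {y : ℕ → Bool | Cyl t y} =
      ⋃ n, ⋃ _ : LastN t n, {y | ∀ m < n, (y m = true ↔ m ∈ t)} := by
    ext y; simp [Cyl]
  rw [this]
  exact MeasurableSet.iUnion fun n => MeasurableSet.iUnion fun _ => meas_below n t

theorem meas_open {S : Sys} {F : Pt S → Set (Finset ℕ)} (hF : ∀ t, MeasurableSet {z | t ∈ F z}) :
    MeasurableSet {p : Pt S × (ℕ → Bool) | p.2 ∈ OpenOf (F p.1)} := by
  have : {p : Pt S × (ℕ → Bool) | p.2 ∈ OpenOf (F p.1)} =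
      ⋃ t, (Prod.fst ⁻¹' {z | t ∈ F z} ∩ Prod.snd ⁻¹' {y | Cyl t y}) := by
    ext p; simp [OpenOf]
  rw [this]
  exact MeasurableSet.iUnion fun t =>
    (measurable_fst (hF t)).inter (measurable_snd (meas_cyl t))

theorem dm1 (sla : G_SLA) (mrt : G_MRT) : G_DM1 := by
  intro S ξ hξ hsee F hF Γ hΓ hdep
  have hdep' : ∀ z z' : Pt S, (∀ c, c ≠ ξ → z c = z' c) → F z = F z' := fun z z' h =>
    hdep z z' fun c hc => h c fun e => hΓ (e ▸ hc)
  have key : ∀ p : ℕ × Finset ℕ, Nul S {z |
      coin {x | x ∉ OpenOf (F z) ∧ ∀ m < p.1, (x m = true ↔ m ∈ p.2)} ≠ 0 ∧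
      ∀ᶠ n in atTop, coin {x | x ∉ OpenOf (F z) ∧ (∀ m < p.1, (x m = true ↔ m ∈ p.2)) ∧
        ∀ m ∈ blk n, x m = z ξ m} = 0} := by
    rintro ⟨l, u⟩
    set B : ℕ → Set (Pt S × (ℕ → Bool)) := fun n => {p |
      coin {y | (y ∉ OpenOf (F p.1) ∧ ∀ m < l, (y m = true ↔ m ∈ u)) ∧
        ∀ m ∈ blk n, y m = p.2 m} = 0} with hB
    have hBm : ∀ n, MeasurableSet (B n) := by
      intro n
      have hA : MeasurableSet {q : (Pt S × (ℕ → Bool)) × (ℕ → Bool) |
          (q.2 ∉ OpenOf (F q.1.1) ∧ ∀ m < l, (q.2 m = true ↔ m ∈ u)) ∧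
            ∀ m ∈ blk n, q.2 m = q.1.2 m} := by
        refine MeasurableSet.inter (MeasurableSet.inter ?_ ?_) ?_
        · have h1 : Measurable fun q : (Pt S × (ℕ → Bool)) × (ℕ → Bool) => (q.1.1, q.2) :=
            (measurable_fst.comp measurable_fst).prodMk measurable_snd
          exact (h1 (meas_open hF)).compl
        · exact measurable_snd (meas_below l u)
        · have : {q : (Pt S × (ℕ → Bool)) × (ℕ → Bool) | ∀ m ∈ blk n, q.2 m = q.1.2 m} =
              ⋂ m ∈ blk n, {q | q.2 m = q.1.2 m} := by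
            ext q; simp
          change MeasurableSet {q : (Pt S × (ℕ → Bool)) × (ℕ → Bool) |
            ∀ m ∈ blk n, q.2 m = q.1.2 m}
          rw [this]
          refine Finset.measurableSet_biInter _ fun m _ => ?_
          exact measurableSet_eq_fun ((measurable_pi_apply m).comp measurable_snd)
            ((measurable_pi_apply m).comp (measurable_snd.comp measurable_fst))
      have h2 : Measurable fun p : Pt S × (ℕ → Bool) => coin (Prod.mk p ⁻¹'
          {q : (Pt S × (ℕ → Bool)) × (ℕ → Bool) |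
          (q.2 ∉ OpenOf (F q.1.1) ∧ ∀ m < l, (q.2 m = true ↔ m ∈ u)) ∧
            ∀ m ∈ blk n, q.2 m = q.1.2 m}) := measurable_measure_prodMk_left hA
      exact h2 (MeasurableSet.singleton 0)
    have hS := sla S ξ hξ hsee B hBm
      (by
        intro n z x x' h
        have : {y : ℕ → Bool | (y ∉ OpenOf (F z) ∧ ∀ m < l, (y m = true ↔ m ∈ u)) ∧
            ∀ m ∈ blk n, y m = x m} = {y | (y ∉ OpenOf (F z) ∧ ∀ m < l, (y m = true ↔ m ∈ u)) ∧
            ∀ m ∈ blk n, y m = x' m} := by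
          ext y
          exact and_congr_right fun _ => forall₂_congr fun m hm => by rw [h m hm]
        show coin _ = 0 ↔ coin _ = 0
        rw [this])
      (by
        intro n z z' x h
        show coin _ = 0 ↔ coin _ = 0
        rw [hdep' z z' h])
    refine PkEHOM.nul_mono ?_ hS
    rintro z ⟨h1, h2⟩
    refine ⟨?_, ?_⟩
    · have hN : MeasurableSet {x : ℕ → Bool | x ∉ OpenOf (F z) ∧ ∀ m < l, (x m = true ↔ m ∈ u)} := by
        refine MeasurableSet.inter ?_ (meas_below l u)
        have h3 : Measurable fun y : ℕ → Bool => (z, y) := measurable_prodMk_left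
        exact (h3 (meas_open hF)).compl
      exact mrt _ hN h1
    · filter_upwards [h2] with n hn
      show coin _ = 0
      rw [← hn]
      congr 1
      ext y
      exact and_assoc
  refine PkEHOM.nul_mono ?_ (PkEHOM.nul_iUnion key)
  rintro z ⟨l, u, h1, h2⟩
  exact mem_iUnion.2 ⟨(l, u), h1, h2⟩

end NU.PkDM1
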