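import Mathlib

/-!
# MP_1fe1ca_lc: the category-measure ideal (definitions of part I)

A system of coordinates, the random points `zz φ ω`, the ideal `Nul`.
-/

open MeasureTheory Filter Topology Set
open scoped ENNReal

noncomputable section

namespace NU

/-- A system of coordinates: `see c c'` says that the coordinate `c'` is visible from `c`;
`gen c` says that `c` is a generic (Cohen) coordinate, the others are random coordinates. -/
structure Sys where
  C : Type
  see : C → C → Prop
  gen : C → Prop
  wf : WellFounded fun c' c => see c c'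
  tr : ∀ {c c' c''}, see c c' → see c' c'' → see c c''

/-- Points: a binary sequence for every coordinate. -/
abbrev Pt (S : Sys) : Type := S.C → ℕ → Bool

/-- Clopen functions on the space of points: they depend on finitely many bits. -/
def CF (S : Sys) : Type :=
  {b : Pt S → Bool // ∃ F : Finset (S.C × ℕ), ∀ z z' : Pt S,
    (∀ p ∈ F, z p.1 p.2 = z' p.1 p.2) → b z = b z'}

instance (S : Sys) : TopologicalSpace (CF S) := ⊥

instance (S : Sys) : DiscreteTopology (CF S) := ⟨rfl⟩

/-- The space of all families of clopen functions, with the product of the discrete topologies. -/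
abbrev Ph (S : Sys) : Type := S.C × ℕ → CF S

/-- Samples: for every coordinate a natural number and a binary sequence. -/
abbrev Om (S : Sys) : Type := S.C → ℕ × (ℕ → Bool)

open Classical in
/-- Recursive definition of the point `zz φ ω`. -/
def zz (S : Sys) (φ : Ph S) (ω : Om S) : Pt S :=
  WellFounded.fix (C := fun _ => ℕ → Bool) S.wf fun c rec n =>
    if n < (ω c).1 ∨ ¬ S.gen c then (ω c).2 n
    else (φ (c, n)).1 fun c' m => if h : S.see c c' then rec c' h m else false

open Classical in
/-- The part of a point which is visible from `c`. -/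
def mask (S : Sys) (c : S.C) (z : Pt S) : Pt S := fun c' m => if S.see c c' then z c' m else false

open Classical in
theorem zz_eq (S : Sys) (φ : Ph S) (ω : Om S) (c : S.C) (n : ℕ) :
    zz S φ ω c n = if n < (ω c).1 ∨ ¬ S.gen c then (ω c).2 n
      else (φ (c, n)).1 (mask S c (zz S φ ω)) := by
  rw [zz, WellFounded.fix_eq]
  rfl

/-- The fair coin. -/
def bern : Measure Bool := (1 / 2 : ℝ≥0∞) • Measure.dirac true + (1 / 2 : ℝ≥0∞) • Measure.dirac false

instance : IsProbabilityMeasure bern := ⟨by
  simp only [bern, Measure.add_apply, Measure.smul_apply, measure_univ, smul_eq_mul, mul_one]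
  rw [ENNReal.div_add_div_same, one_add_one_eq_two]
  exact ENNReal.div_self (by norm_num) (by norm_num)⟩

/-- The measure on the Cantor space. -/
def coin : Measure (ℕ → Bool) := Measure.infinitePi fun _ => bern

instance : IsProbabilityMeasure coin := by unfold coin; infer_instance

/-- The geometric distribution. -/
def geo : Measure ℕ := Measure.sum fun n => ((1 / 2 : ℝ≥0∞) ^ (n + 1)) • Measure.dirac n

instance : IsProbabilityMeasure geo := ⟨by
  simp only [geo, Measure.sum_apply _ MeasurableSet.univ, Measure.smul_apply, measure_univ,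
    smul_eq_mul, mul_one]
  have h : ∀ n : ℕ, (1 / 2 : ℝ≥0∞) ^ (n + 1) = (2⁻¹ : ℝ≥0∞) ^ (n + 1) := by
    intro n; rw [one_div]
  simp only [h]
  rw [ENNReal.tsum_geometric_add_one, ENNReal.one_sub_inv_two, inv_inv]
  exact ENNReal.inv_mul_cancel (by norm_num) (by norm_num)⟩

/-- The distribution of a sample at one coordinate. -/
def rho : Measure (ℕ × (ℕ → Bool)) := geo.prod coin

instance : IsProbabilityMeasure rho := by unfold rho; infer_instance

/-- The probability measure on the samples. -/
def PP (S : Sys) : Measure (Om S) := Measure.infinitePi fun _ => rho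

instance (S : Sys) : IsProbabilityMeasure (PP S) := by unfold PP; infer_instance

/-- The probability that the point `zz φ ω` is in `K`. -/
def pr (S : Sys) (φ : Ph S) (K : Set (Pt S)) : ℝ≥0∞ := PP S {ω | zz S φ ω ∈ K}

/-- The ideal. -/
def Nul (S : Sys) (K : Set (Pt S)) : Prop := ∀ᶠ φ in residual (Ph S), pr S φ K = 0

/-- `φ` agrees with `φ₀` on `F`. -/
def Agr {S : Sys} (F : Finset (S.C × ℕ)) (φ₀ φ : Ph S) : Prop := ∀ p ∈ F, φ p = φ₀ p

open Classical in
/-- `φ` overwritten by `φ₀` on `F`. -/
def ovr {S : Sys} (F : Finset (S.C × ℕ)) (φ₀ φ : Ph S) : Ph S := fun p => if p ∈ F then φ₀ p else φ p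

/-- The `n`-th block. -/
def blk (n : ℕ) : Finset ℕ := Finset.Ico (2 ^ n) (2 ^ (n + 1))

/-- The null set coded by `c`. -/
def Nset (c : ℕ → Bool) : Set (ℕ → Bool) := {x | ∃ᶠ n in atTop, ∀ m ∈ blk n, x m = c m}

/-- `n` is the last element of `t`. -/
def LastN (t : Finset ℕ) (n : ℕ) : Prop := n ∈ t ∧ ∀ m ∈ t, m ≤ n

/-- The cylinder coded by the nonempty finite set `t`. -/
def Cyl (t : Finset ℕ) (x : ℕ → Bool) : Prop := ∃ n, LastN t n ∧ ∀ m < n, (x m = true ↔ m ∈ t)

/-- `F` is the code of an open set of measure at most `2 ^ (-k)`. -/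
structure Good (k : ℕ) (F : Set (Finset ℕ)) : Prop where
  ne : ∀ t ∈ F, t.Nonempty
  mono : ∀ t t' n, t ∈ F → LastN t n → LastN t' (n + 1) → (∀ m < n, (m ∈ t ↔ m ∈ t')) → t' ∈ F
  card : ∀ n, {t ∈ F | LastN t n}.ncard * 2 ^ k ≤ 2 ^ n

/-- The open set coded by `F`. -/
def OpenOf (F : Set (Finset ℕ)) : Set (ℕ → Bool) := {x | ∃ t ∈ F, Cyl t x}

end NU
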