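import Pool.Agent.Helper46.NU.Defs

/-!
# MP_1fe1ca_lc: goals of part I (measure and category)
-/

open MeasureTheory Filter Topology Set
open scoped ENNReal

noncomputable section

namespace NU

/-! ## The points -/

/-- `V` is closed under visible coordinates. -/
def ClosedS (S : Sys) (V : Set S.C) : Prop := ∀ c ∈ V, ∀ c', S.see c c' → c' ∈ V

/-- Locality. -/
def G_LOC : Prop := ∀ (S : Sys) (V : Set S.C), ClosedS S V → ∀ (φ φ' : Ph S) (ω ω' : Om S),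
  (∀ c ∈ V, ∀ n, φ (c, n) = φ' (c, n)) → (∀ c ∈ V, ω c = ω' c) →
  ∀ c ∈ V, zz S φ ω c = zz S φ' ω' c

/-- Measurability. -/
def G_MZ : Prop := ∀ (S : Sys) (φ : Ph S), Measurable (zz S φ)

/-- Every bit is locally constant in `φ`, uniformly in the sample. -/
def G_LC : Prop := ∀ (S : Sys) (φ : Ph S) (c : S.C) (n : ℕ), ∃ F : Finset (S.C × ℕ),
  ∀ φ' : Ph S, Agr F φ φ' → ∀ ω : Om S, zz S φ' ω c n = zz S φ ω c n

/-! ## Category -/

/-- Products of discrete spaces are Baire spaces. -/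
def G_BAI : Prop := ∀ (ι X : Type) [TopologicalSpace X] [DiscreteTopology X], BaireSpace (ι → X)

/-- Localization of nonmeager sets. -/
def G_CYL : Prop := ∀ (S : Sys) (E : Set (Ph S)), BaireMeasurableSet E →
  ∀ (F₀ : Finset (S.C × ℕ)) (φ₀ : Ph S),
  (¬ ∀ᶠ φ in residual (Ph S), Agr F₀ φ₀ φ → φ ∉ E) →
  ∃ (F : Finset (S.C × ℕ)) (φ₁ : Ph S), F₀ ⊆ F ∧ Agr F₀ φ₀ φ₁ ∧
    ∀ᶠ φ in residual (Ph S), Agr F φ₁ φ → φ ∈ E

/-- Overwriting preserves comeager sets. -/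
def G_OVR : Prop := ∀ (S : Sys) (F : Finset (S.C × ℕ)) (φ₁ : Ph S) (Q : Ph S → Prop),
  (∀ᶠ φ in residual (Ph S), Agr F φ₁ φ → Q φ) → ∀ᶠ φ in residual (Ph S), Q (ovr F φ₁ φ)

/-- The probabilities are Baire measurable functions of `φ`. -/
def G_BM : Prop := ∀ (S : Sys) (K : Set (Pt S)), MeasurableSet K → ∀ r : ℝ≥0∞,
  BaireMeasurableSet {φ : Ph S | r ≤ pr S φ K}

/-! ## The comparison of the probabilities -/

/-- Change of a deterministic sequence behind a random stem. -/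
def G_LB1 : Prop := ∀ (l : ℕ) (a a' : ℕ → Bool), (∀ n, l ≤ n → a n = a' n) →
  ∀ A : Set (ℕ → Bool), MeasurableSet A →
  rho {s | (fun n => if n < s.1 then s.2 n else a' n) ∈ A} ≤
    (1 + 2 ^ (2 * l + 1)) * rho {s | (fun n => if n < s.1 then s.2 n else a n) ∈ A}

/-- Resampling of one coordinate. -/
def G_UPD : Prop := ∀ (C X : Type) [DecidableEq C] [MeasurableSpace X] (μ : Measure X)
  [IsProbabilityMeasure μ] (c : C),
  Measure.map (fun p : X × (C → X) => Function.update p.2 c p.1)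
    (μ.prod (Measure.infinitePi fun _ : C => μ)) = Measure.infinitePi fun _ : C => μ

/-- Changes of `φ` at one coordinate. -/
def G_LBS : Prop := ∀ (S : Sys) (c : S.C) (l : ℕ) (φ φ' : Ph S),
  (∀ p : S.C × ℕ, ¬ (p.1 = c ∧ p.2 < l) → φ p = φ' p) → ∀ K : Set (Pt S), MeasurableSet K →
    pr S φ' K ≤ (1 + 2 ^ (2 * l + 1)) * pr S φ K

/-- Finite changes of `φ`. -/
def G_LB : Prop := ∀ (S : Sys) (F : Finset (S.C × ℕ)), ∃ D : ℝ≥0∞, D ≠ ⊤ ∧
  ∀ φ φ' : Ph S, (∀ p, p ∉ F → φ p = φ' p) → ∀ K : Set (Pt S), MeasurableSet K →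
    pr S φ' K ≤ D * pr S φ K

/-- The zero-one law. -/
def G_STAR : Prop := ∀ (S : Sys) (K : Set (Pt S)), MeasurableSet K → ¬ Nul S K →
  ∃ δ : ℝ≥0∞, δ ≠ 0 ∧ ∀ᶠ φ in residual (Ph S), δ ≤ pr S φ K

/-- The countable chain condition. -/
def G_CCC : Prop := ∀ (S : Sys) (ι : Type) (K : ι → Set (Pt S)), (∀ i, MeasurableSet (K i)) →
  (∀ i, ¬ Nul S (K i)) → (∀ i j, i ≠ j → Nul S (K i ∩ K j)) → Countable ι

/-- `e` represents `L` as the algebra of measurable sets modulo the ideal. -/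
structure AlgI (S : Sys) (L : Type) [CompleteBooleanAlgebra L] (e : Set (Pt S) → L) : Prop where
  le : ∀ K K', MeasurableSet K → MeasurableSet K' → (e K ≤ e K' ↔ Nul S (K \ K'))
  surj : ∀ b, ∃ K, MeasurableSet K ∧ e K = b

/-- The complete Boolean algebra exists. -/
def G_ALG : Prop := ∀ S : Sys, ∃ (L : Type) (_ : CompleteBooleanAlgebra L)
  (e : Set (Pt S) → L), AlgI S L e

/-- Homomorphism properties. -/
def G_EHOM : Prop := ∀ (S : Sys) (L : Type) [CompleteBooleanAlgebra L] (e : Set (Pt S) → L),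
  AlgI S L e → e Set.univ = ⊤ ∧ e ∅ = ⊥ ∧ (⊤ : L) ≠ ⊥ ∧
  (∀ K, MeasurableSet K → e Kᶜ = (e K)ᶜ) ∧
  (∀ K K', MeasurableSet K → MeasurableSet K' → e (K ∩ K') = e K ⊓ e K' ∧
    e (K ∪ K') = e K ⊔ e K') ∧
  (∀ (ι : Type) [Countable ι] (K : ι → Set (Pt S)), (∀ i, MeasurableSet (K i)) →
    e (⋃ i, K i) = ⨆ i, e (K i) ∧ e (⋂ i, K i) = ⨅ i, e (K i)) ∧
  (∀ K, MeasurableSet K → (e K = ⊥ ↔ Nul S K) ∧ (e K = ⊤ ↔ Nul S Kᶜ))

/-- Countable supports. -/
def G_SUP : Prop := ∀ (S : Sys) (K : ℕ → Set (Pt S)), (∀ i, MeasurableSet (K i)) →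
  ∃ Γ : Set S.C, Γ.Countable ∧ ∀ z z' : Pt S, (∀ c ∈ Γ, z c = z' c) → ∀ i, (z ∈ K i ↔ z' ∈ K i)

/-! ## Null sets -/

/-- The measure of a coded open set. -/
def G_GM : Prop := ∀ (k : ℕ) (F : Set (Finset ℕ)), Good k F → coin (OpenOf F) ≤ (1 / 2) ^ k

/-- A code of an open set covering `Nset c`. -/
def NF (k : ℕ) (c : ℕ → Bool) : Set (Finset ℕ) :=
  {t | ∃ n, LastN t n ∧ ∃ j, k + 1 ≤ j ∧ 2 ^ (j + 1) ≤ n ∧ ∀ m ∈ blk j, (m ∈ t ↔ c m = true)}

/-- The sets `Nset c` are null sets. -/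
def G_NG : Prop := ∀ (k : ℕ) (c : ℕ → Bool), Good k (NF k c) ∧ Nset c ⊆ OpenOf (NF k c)

/-- A random coordinate avoids the null sets coded by coordinates which do not see it. -/
def G_RND : Prop := ∀ (S : Sys) (c₀ : S.C), ¬ S.gen c₀ → ∀ F : ℕ → Pt S → Set (Finset ℕ),
  (∀ k t, MeasurableSet {z | t ∈ F k z}) → ∀ Γ : Set S.C, (∀ c ∈ Γ, c ≠ c₀ ∧ ¬ S.see c c₀) →
  (∀ k z z', (∀ c ∈ Γ, z c = z' c) → F k z = F k z') →
  Nul S {z | ∀ k, Good k (F k z) ∧ z c₀ ∈ OpenOf (F k z)}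

/-- Approximation of measurable sets by clopen functions. -/
def G_APX : Prop := ∀ (S : Sys) (q : S.C) (K : Set (Pt S)), MeasurableSet K →
  (∀ z z', (∀ c, S.see q c → z c = z' c) → (z ∈ K ↔ z' ∈ K)) →
  ∃ b : ℕ → CF S, ∀ (φ : Ph S) (η : ℝ≥0∞), η ≠ 0 →
    ∃ j, pr S φ {z | ¬ ((b j).1 (mask S q z) = true ↔ z ∈ K)} < η

/-- A generic coordinate agrees on infinitely many blocks with every real depending on the
coordinates it sees. -/
def G_COH : Prop := ∀ (S : Sys) (q : S.C), S.gen q → ∀ w : Pt S → ℕ → Bool, Measurable w →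
  (∀ z z', (∀ c, S.see q c → z c = z' c) → w z = w z') →
  Nul S {z | ¬ w z ∈ Nset (z q)}

/-- Flipping bits of a generic coordinate which sees nothing. -/
def G_FLP : Prop := ∀ (S : Sys) (ξ : S.C), S.gen ξ → (∀ c, ¬ S.see ξ c) →
  ∀ (J : Finset ℕ) (x : ℕ → Bool), ∃ Θ : Ph S ≃ₜ Ph S,
    (∀ (φ : Ph S) (K : Set (Pt S)), MeasurableSet K →
      (∀ z z', (∀ c, c ≠ ξ → z c = z' c) → (z ∈ K ↔ z' ∈ K)) → pr S (Θ φ) K = pr S φ K) ∧
    (∀ (φ : Ph S) (m : ℕ), m ∈ J → ∀ z, (Θ φ (ξ, m)).1 z = xor ((φ (ξ, m)).1 z) (x m)) ∧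
    (∀ (φ : Ph S) (m : ℕ), m ∉ J → Θ φ (ξ, m) = φ (ξ, m)) ∧
    ∀ (φ : Ph S) (c : S.C) (m : ℕ), c ≠ ξ →
      (∀ z z', (∀ c' m', ¬ (c' = ξ ∧ m' ∈ J) → z c' m' = z' c' m') →
        (φ (c, m)).1 z = (φ (c, m)).1 z') → Θ φ (c, m) = φ (c, m)

/-- A generic coordinate which sees nothing is not captured by a small slalom which does not
depend on it. -/
def G_SLA : Prop := ∀ (S : Sys) (ξ : S.C), S.gen ξ → (∀ c, ¬ S.see ξ c) →
  ∀ B : ℕ → Set (Pt S × (ℕ → Bool)), (∀ n, MeasurableSet (B n)) →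
  (∀ n z x x', (∀ m ∈ blk n, x m = x' m) → ((z, x) ∈ B n ↔ (z, x') ∈ B n)) →
  (∀ n z z' x, (∀ c, c ≠ ξ → z c = z' c) → ((z, x) ∈ B n ↔ (z', x) ∈ B n)) →
  Nul S {z | Tendsto (fun n => coin {x | (z, x) ∈ B n}) atTop (𝓝 0) ∧
    ∀ᶠ n in atTop, (z, z ξ) ∈ B n}

/-- A closed set of positive measure contains almost all patterns on the late blocks. -/
def G_MRT : Prop := ∀ T : Set (ℕ → Bool), MeasurableSet T → coin T ≠ 0 →
  Tendsto (fun n => coin {x | coin {y ∈ T | ∀ m ∈ blk n, y m = x m} = 0}) atTop (𝓝 0)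

/-- Almost every closed set coded without `ξ` contains, in every node, points which agree with
the real `ξ` on infinitely many blocks. -/
def G_DM1 : Prop := ∀ (S : Sys) (ξ : S.C), S.gen ξ → (∀ c, ¬ S.see ξ c) →
  ∀ F : Pt S → Set (Finset ℕ), (∀ t, MeasurableSet {z | t ∈ F z}) → ∀ Γ : Set S.C, ξ ∉ Γ →
  (∀ z z', (∀ c ∈ Γ, z c = z' c) → F z = F z') →
  Nul S {z | ∃ (l : ℕ) (u : Finset ℕ),
    coin {x | x ∉ OpenOf (F z) ∧ ∀ m < l, (x m = true ↔ m ∈ u)} ≠ 0 ∧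
    ∀ᶠ n in atTop, coin {x | x ∉ OpenOf (F z) ∧ (∀ m < l, (x m = true ↔ m ∈ u)) ∧
      ∀ m ∈ blk n, x m = z ξ m} = 0}

/-- The null set coded by a generic coordinate which sees nothing is not covered by a null set
which does not depend on it. -/
def G_DOM : Prop := ∀ (S : Sys) (ξ : S.C), S.gen ξ → (∀ c, ¬ S.see ξ c) →
  ∀ F : Pt S → Set (Finset ℕ), (∀ t, MeasurableSet {z | t ∈ F z}) → ∀ Γ : Set S.C, ξ ∉ Γ →
  (∀ z z', (∀ c ∈ Γ, z c = z' c) → F z = F z') →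
  ∃ w : Pt S → ℕ → Bool, Measurable w ∧
    Nul S {z | Good 1 (F z) ∧ ¬ (w z ∉ OpenOf (F z) ∧ w z ∈ Nset (z ξ))}

/-! ## The system of coordinates -/

/-- The coordinates: random reals `x a`, `y b`, Cohen reals `d i`, `c a b`. -/
inductive Co (A B D : Type) : Type
  | x (a : A)
  | y (b : B)
  | d (i : D)
  | c (a : A) (b : B)

namespace Co

variable {A B D : Type} [LinearOrder A] [LinearOrder B]

/-- Visible coordinates. -/
def see : Co A B D → Co A B D → Prop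
  | c a _, x a' => a' < a
  | c _ b, y b' => b' < b
  | c _ _, d _ => True
  | c a b, c a' b' => a' < a ∧ b' < b
  | _, _ => False

/-- Generic coordinates. -/
def gen : Co A B D → Prop
  | d _ => True
  | c _ _ => True
  | _ => False

theorem see_tr {p q r : Co A B D} (h : see p q) (k : see q r) : see p r := by
  cases p <;> cases q <;> cases r <;> simp only [see] at h k ⊢
  · exact lt_trans k h.1
  · exact lt_trans k h.2
  · exact ⟨lt_trans k.1 h.1, lt_trans k.2 h.2⟩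

theorem see_wf [WellFoundedLT A] : WellFounded fun q p : Co A B D => see p q := by
  have h0 : ∀ p : Co A B D, (∀ q, ¬ see p q) → Acc (fun q p : Co A B D => see p q) p :=
    fun p hp => Acc.intro p fun q hq => absurd hq (hp q)
  have hc : ∀ a : A, ∀ b : B, Acc (fun q p : Co A B D => see p q) (c a b) := by
    intro a
    induction a using WellFoundedLT.induction with
    | ind a ih =>
      intro b
      refine Acc.intro _ fun q hq => ?_
      cases q with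
      | x a' => exact h0 _ fun r => by simp [see]
      | y b' => exact h0 _ fun r => by simp [see]
      | d i => exact h0 _ fun r => by simp [see]
      | c a' b' => exact ih a' hq.1 b'
  refine ⟨fun p => ?_⟩
  cases p with
  | x a' => exact h0 _ fun r => by simp [see]
  | y b' => exact h0 _ fun r => by simp [see]
  | d i => exact h0 _ fun r => by simp [see]
  | c a' b' => exact hc a' b'

end Co

/-- The system used for the theorem. -/
def Sy (A B D : Type) [LinearOrder A] [WellFoundedLT A] [LinearOrder B] : Sys where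
  C := Co A B D
  see := Co.see
  gen := Co.gen
  wf := Co.see_wf
  tr := Co.see_tr

/-- The index sets: their cardinalities are `ℵ₁ < ℵ₂ < ℵ₃ < ℵ₄`. -/
structure Sizes (W A B D : Type) [LinearOrder A] [LinearOrder B] : Prop where
  unc : Uncountable W
  neA : Nonempty A
  neB : Nonempty B
  inj : ∃ j : W → D, Function.Injective j
  bdA : ∀ f : W × ℕ → A, ∃ a, ∀ i, f i < a
  bdB : ∀ f : A × ℕ → B, ∃ b, ∀ i, f i < b
  bdW : ∀ f : W × ℕ → B, ∃ b, ∀ i, f i < b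
  bdD : ∀ f : (A × B) × ℕ → D, ∃ d, ∀ i, f i ≠ d

/-- The index sets exist. -/
def G_SIZ : Prop := ∃ (W A B D : Type) (_ : LinearOrder A) (_ : WellFoundedLT A)
  (_ : LinearOrder B), Sizes W A B D

end NU
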