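import Pool.Agent.Helper46.NU.Names
import Pool.Agent.Helper46.FL.Lib

/-! # MP_1fe1ca_lc: assembly -/

namespace NU

open Pool.Agent.Helper97.Ku

theorem main (siz : G_SIZ) (alg : G_ALG) (ehom : G_EHOM) (omg : G_OMG) (add : G_ADD)
    (non : G_NON) (cc : G_CC) (syn : G_SYN) :
    ∃ (N : Type 1) (E : N → N → Prop), IsZFC N E ∧ Sep E := by
  obtain ⟨W, A, B, D, iA, iA', iB, hs⟩ := siz
  obtain ⟨L, iL, e, he⟩ := alg (Sy A B D)
  obtain ⟨φ, h1, h2⟩ := syn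
  have h3 : (⊤ : L) ≠ ⊥ := (ehom (Sy A B D) L e he).2.2.1
  have h4 : φ.val (fun _ => (omN : BSet L)) ≠ ⊥ := by
    rw [h2]
    change sepV L ≠ ⊥
    have h5 : (⊤ : L) ≤ sepV L := by
      refine le_trans ?_ (le_iSup _ (omN : BSet L))
      rw [omg L, add W A B D hs L e he, non W A B D hs L e he, cc W A B D hs L e he]
      simp
    rw [top_le_iff.mp h5]
    exact h3
  obtain ⟨N, E, v, hZ, hv⟩ := Pool.Agent.Helper46.FL.con L φ _ h4
  exact ⟨N, E, hZ, (h1 N E v).1 hv⟩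

end NU
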