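import Pool.Agent.Helper97.Ku.Model
import Pool.Agent.Helper97.Ku.Quo

/-!
# MP_1fe1ca_lc: the statement about models of ZFC, and its Boolean-valued version

`Sep E` says that in the structure `(N, E)` the inequalities
`add(𝒩) < non(𝒩) < cov(𝒩) < cof(𝒩)` hold, where `𝒩` is the ideal of Lebesgue null sets of the
Cantor space, whose points are the subsets of `ω`.
-/

namespace NU

open Pool.Agent.Helper97.Ku

universe u v

section Model

variable {N : Type v} (E : N → N → Prop)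

/-- Inclusion. -/
def Sub (a b : N) : Prop := ∀ t, E t a → E t b

/-- The ordered pair of `a` and `b` is in `f`. -/
def Ap (f a b : N) : Prop := ∃ z, E z f ∧ IsPr E z a b

/-- There is an injective function (a set of ordered pairs of the model) from the class `P` to the
class `Q`. -/
def Inj (P Q : N → Prop) : Prop :=
  ∃ f, (∀ a, P a → ∃ b, Q b ∧ ∀ c, Ap E f a c ↔ c = b) ∧
    ∀ a a' b, P a → P a' → Ap E f a b → Ap E f a' b → a = a'

/-- `n` is the largest element of the set `t` of natural numbers. -/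
def Lst (t n : N) : Prop := E n t ∧ ∀ m, E m t → (E m n ∨ m = n)

/-- `x` and `y` have the same elements below `n`. -/
def AgB (n x y : N) : Prop := ∀ m, E m n → (E m x ↔ E m y)

/-- `n'` is the successor of `n`. -/
def Suc (n' n : N) : Prop := ∀ m, E m n' ↔ (E m n ∨ m = n)

/-- `F` is the code of an open set of measure at most `2 ^ (-k)`. A finite nonempty set `t` of
natural numbers with the largest element `n` codes the basic clopen set `[t]` of all `x ⊆ ω` with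
`x ∩ n = t ∩ n`, of measure `2 ^ (-n)`. The code `F` is a set of such `t`; the clopen sets `C n`,
the union of the `[t]` with `t ∈ F` and largest element `n`, are increasing, and the measure of
`C n` is at most `2 ^ (-k)`: the number of these `t` is `0` for `n < k` and at most the number
`2 ^ (n - k)` of the subsets of `n \ k` otherwise. The open set coded by `F` is the union of all
`C n`. -/
structure Code (o k F : N) : Prop where
  last : ∀ t, E t F → ∃ n, E n o ∧ Lst E t n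
  mono : ∀ t t' n n', E t F → E n o → Lst E t n → Suc E n' n → Lst E t' n' → AgB E n t t' →
    E t' F
  small : ∀ n t, E n o → E n k → E t F → ¬ Lst E t n
  card : ∀ n, E n o → ¬ E n k →
    Inj E (fun t => E t F ∧ Lst E t n) (fun u => Sub E u n ∧ ∀ m, E m u → ¬ E m k)

/-- `A` is a set of subsets of `ω`. -/
def IsReals (o A : N) : Prop := ∀ x, E x A → Sub E x o

/-- `A` is a subset of the open set coded by `F`. -/
def Cov (F A : N) : Prop := ∀ x, E x A → ∃ t n, E t F ∧ Lst E t n ∧ AgB E n t x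

/-- `A` is a Lebesgue null set of subsets of `ω`: for every natural number `k` it is covered by an
open set of measure at most `2 ^ (-k)`. -/
def IsNull (o A : N) : Prop :=
  IsReals E o A ∧ ∀ k, E k o → ∃ F, Code E o k F ∧ Cov E F A

/-- `add(𝒩) < non(𝒩)`: some family `a` of null sets, not all of them included in one null set,
has smaller cardinality than every set of reals which is not null. -/
def AddLtNon (o : N) : Prop :=
  ∃ a, (∀ M, E M a → IsNull E o M) ∧ (∀ U, IsNull E o U → ¬ ∀ M, E M a → Sub E M U) ∧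
    ∀ Y, IsReals E o Y → ¬ IsNull E o Y → ¬ Inj E (fun y => E y Y) (fun M => E M a)

/-- `non(𝒩) < cov(𝒩)`: some set `Y` of reals which is not null has smaller cardinality than
every family of null sets covering the reals. -/
def NonLtCov (o : N) : Prop :=
  ∃ Y, IsReals E o Y ∧ ¬ IsNull E o Y ∧
    ∀ c, (∀ M, E M c → IsNull E o M) → (∀ x, Sub E x o → ∃ M, E M c ∧ E x M) →
      ¬ Inj E (fun M => E M c) (fun y => E y Y)

/-- `cov(𝒩) < cof(𝒩)`: some family `c` of null sets covering the reals has smaller cardinality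
than every cofinal family `d` of null sets. -/
def CovLtCof (o : N) : Prop :=
  ∃ c, (∀ M, E M c → IsNull E o M) ∧ (∀ x, Sub E x o → ∃ M, E M c ∧ E x M) ∧
    ∀ d, (∀ M, E M d → IsNull E o M) → (∀ U, IsNull E o U → ∃ M, E M d ∧ Sub E U M) →
      ¬ Inj E (fun M => E M d) (fun M => E M c)

/-- In `(N, E)`: `add(𝒩) < non(𝒩) < cov(𝒩) < cof(𝒩)`. -/
def Sep : Prop := ∃ o, IsOmega E o ∧ AddLtNon E o ∧ NonLtCov E o ∧ CovLtCof E o

end Model

section Val

variable {L : Type u} [CompleteBooleanAlgebra L]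

/-- Equivalence. -/
def iffV (a b : L) : L := (a ⇨ b) ⊓ (b ⇨ a)

def subV (a b : BSet L) : L := ⨅ t : BSet L, (t.mem a ⇨ t.mem b)

def prV (z a b : BSet L) : L :=
  ⨅ t : BSet L, iffV (t.mem z) ((⨅ s : BSet L, iffV (s.mem t) (s.eq a)) ⊔
    (⨅ s : BSet L, iffV (s.mem t) (s.eq a ⊔ s.eq b)))

def apV (f a b : BSet L) : L := ⨆ z : BSet L, (z.mem f ⊓ prV z a b)

def injV (P Q : BSet L → L) : L :=
  ⨆ f : BSet L, ((⨅ a : BSet L, (P a ⇨ ⨆ b : BSet L, (Q b ⊓
      ⨅ c : BSet L, iffV (apV f a c) (c.eq b)))) ⊓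
    ⨅ a : BSet L, ⨅ a' : BSet L, ⨅ b : BSet L,
      ((P a ⊓ (P a' ⊓ (apV f a b ⊓ apV f a' b))) ⇨ a.eq a'))

def lstV (t n : BSet L) : L := n.mem t ⊓ ⨅ m : BSet L, (m.mem t ⇨ (m.mem n ⊔ m.eq n))

def agbV (n x y : BSet L) : L := ⨅ m : BSet L, (m.mem n ⇨ iffV (m.mem x) (m.mem y))

def sucV (n' n : BSet L) : L := ⨅ m : BSet L, iffV (m.mem n') (m.mem n ⊔ m.eq n)

def codeV (o k F : BSet L) : L :=
  (⨅ t : BSet L, (t.mem F ⇨ ⨆ n : BSet L, (n.mem o ⊓ lstV t n))) ⊓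
  ((⨅ t : BSet L, ⨅ t' : BSet L, ⨅ n : BSet L, ⨅ n' : BSet L,
    ((t.mem F ⊓ (n.mem o ⊓ (lstV t n ⊓ (sucV n' n ⊓ (lstV t' n' ⊓ agbV n t t'))))) ⇨
      t'.mem F)) ⊓
  ((⨅ n : BSet L, ⨅ t : BSet L, ((n.mem o ⊓ (n.mem k ⊓ t.mem F)) ⇨ (lstV t n)ᶜ)) ⊓
  (⨅ n : BSet L, ((n.mem o ⊓ (n.mem k)ᶜ) ⇨
    injV (fun t => t.mem F ⊓ lstV t n)
      (fun u => subV u n ⊓ ⨅ m : BSet L, (m.mem u ⇨ (m.mem k)ᶜ))))))

def realsV (o A : BSet L) : L := ⨅ x : BSet L, (x.mem A ⇨ subV x o)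

def covV (F A : BSet L) : L :=
  ⨅ x : BSet L, (x.mem A ⇨ ⨆ t : BSet L, ⨆ n : BSet L, (t.mem F ⊓ (lstV t n ⊓ agbV n t x)))

def nullV (o A : BSet L) : L :=
  realsV o A ⊓ ⨅ k : BSet L, (k.mem o ⇨ ⨆ F : BSet L, (codeV o k F ⊓ covV F A))

/-- All members of `a` are null sets. -/
def famV (o a : BSet L) : L := ⨅ M : BSet L, (M.mem a ⇨ nullV o M)

/-- The members of `a` cover the reals. -/
def crV (o a : BSet L) : L :=
  ⨅ x : BSet L, (subV x o ⇨ ⨆ M : BSet L, (M.mem a ⊓ x.mem M))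

def addV (o : BSet L) : L :=
  ⨆ a : BSet L, (famV o a ⊓ ((⨅ U : BSet L, (nullV o U ⇨
      (⨅ M : BSet L, (M.mem a ⇨ subV M U))ᶜ)) ⊓
    ⨅ Y : BSet L, (realsV o Y ⇨ ((nullV o Y)ᶜ ⇨
      (injV (fun y => y.mem Y) (fun M => M.mem a))ᶜ))))

def nonV (o : BSet L) : L :=
  ⨆ Y : BSet L, (realsV o Y ⊓ ((nullV o Y)ᶜ ⊓
    ⨅ c : BSet L, (famV o c ⇨ (crV o c ⇨
      (injV (fun M => M.mem c) (fun y => y.mem Y))ᶜ))))

def ccV (o : BSet L) : L :=
  ⨆ c : BSet L, (famV o c ⊓ (crV o c ⊓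
    ⨅ d : BSet L, (famV o d ⇨ ((⨅ U : BSet L, (nullV o U ⇨
        ⨆ M : BSet L, (M.mem d ⊓ subV U M))) ⇨
      (injV (fun M => M.mem d) (fun M => M.mem c))ᶜ))))

/-- Transitive sets. -/
def traV (a : BSet L) : L :=
  ⨅ x : BSet L, (x.mem a ⇨ ⨅ y : BSet L, (y.mem x ⇨ y.mem a))

def ordV (a : BSet L) : L := traV a ⊓ ⨅ x : BSet L, (x.mem a ⇨ traV x)

def omegaV (o : BSet L) : L :=
  ordV o ⊓ ((⨆ x : BSet L, x.mem o) ⊓
    ((⨅ x : BSet L, (x.mem o ⇨ ⨆ y : BSet L, (y.mem o ⊓ x.mem y))) ⊓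
      (⨅ x : BSet L, (x.mem o ⇨ ((⨅ y : BSet L, (y.mem x)ᶜ) ⊔
        ⨆ y : BSet L, (y.mem x ⊓ ⨅ z : BSet L, (z.mem x ⇨ (z.mem y ⊔ z.eq y))))))))

def sepV (L : Type u) [CompleteBooleanAlgebra L] : L :=
  ⨆ o : BSet L, (omegaV o ⊓ (addV o ⊓ (nonV o ⊓ ccV o)))

end Val

end NU
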