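import Pool.Agent.Helper46.NU.Goals1
import Pool.Agent.Helper46.NU.Model
import Pool.Agent.Helper97.Ku.GoalsG

/-!
# MP_1fe1ca_lc: names (part II)
-/

open MeasureTheory Filter Topology Set

noncomputable section

namespace NU

open Pool.Agent.Helper97.Ku

section Names

variable {L : Type} [CompleteBooleanAlgebra L]

/-- The name of the natural number `n`. -/
def nn : ℕ → BSet L
  | n => BSet.mk (Fin n) (fun i => nn i.1) (fun _ => ⊤)
termination_by n => n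
decreasing_by exact i.2

/-- The name of `ω`. -/
def omN : BSet L := BSet.mk ℕ nn (fun _ => ⊤)

/-- The name of a finite set of natural numbers. -/
def fsN (t : Finset ℕ) : BSet L := BSet.mk {m // m ∈ t} (fun m => nn m.1) (fun _ => ⊤)

variable {S : Sys} (e : Set (Pt S) → L)

/-- The name of a real. -/
def rnN (w : Pt S → ℕ → Bool) : BSet L := BSet.mk ℕ nn (fun n => e {z | w z n = true})

/-- The name of the null set `Nset (c z)`. -/
def NsN (c : Pt S → ℕ → Bool) : BSet L :=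
  BSet.mk {w : Pt S → ℕ → Bool // Measurable w} (fun w => rnN e w.1)
    (fun w => e {z | w.1 z ∈ Nset (c z)})

/-- The name of a set of finite sets. -/
def cdN (F : Pt S → Set (Finset ℕ)) : BSet L :=
  BSet.mk (Finset ℕ) fsN (fun t => e {z | t ∈ F z})

/-- The name of a family of sets. -/
def famN {ι : Type} (x : ι → BSet L) : BSet L := BSet.mk ι x (fun _ => ⊤)

end Names

/-! ### Goals -/

/-- Names of natural numbers. -/
def G_NAT : Prop := ∀ (L : Type) [CompleteBooleanAlgebra L],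
  (∀ (n : ℕ) (x : BSet L), x.mem (nn n) = ⨆ i : Fin n, x.eq (nn i.1)) ∧
  (∀ x : BSet L, x.mem omN = ⨆ n : ℕ, x.eq (nn n)) ∧
  (∀ m n : ℕ, (nn m : BSet L).eq (nn n) = bo (m = n)) ∧
  (∀ m n : ℕ, (nn m : BSet L).mem (nn n) = bo (m < n))

/-- The name of `ω` is a name of `ω`. -/
def G_OMG : Prop := ∀ (L : Type) [CompleteBooleanAlgebra L], omegaV (omN : BSet L) = ⊤

/-- Names of finite sets of natural numbers, first part. -/
def G_FN1 : Prop := ∀ (L : Type) [CompleteBooleanAlgebra L],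
  (∀ (m : ℕ) (t : Finset ℕ), (nn m : BSet L).mem (fsN t) = bo (m ∈ t)) ∧
  (∀ (x : BSet L) (t : Finset ℕ), x.mem (fsN t) = ⨆ m : ℕ, (x.eq (nn m) ⊓ bo (m ∈ t))) ∧
  (∀ t t' : Finset ℕ, (fsN t : BSet L).eq (fsN t') = bo (t = t')) ∧
  (∀ (n : ℕ) (x : BSet L), subV x (nn n) ≤ ⨆ t : Finset ℕ, ⨆ _ : t ⊆ Finset.range n, x.eq (fsN t))

/-- Names of finite sets of natural numbers, second part. -/
def G_FN2 : Prop := ∀ (L : Type) [CompleteBooleanAlgebra L],
  (∀ (n : ℕ) (x : BSet L), lstV x (nn n) ≤ ⨆ t : Finset ℕ, ⨆ _ : LastN t n, x.eq (fsN t)) ∧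
  (∀ (t : Finset ℕ) (n : ℕ), lstV (fsN t : BSet L) (nn n) = bo (LastN t n)) ∧
  (∀ (t : Finset ℕ) (k n : ℕ), (subV (fsN t : BSet L) (nn n) ⊓
    ⨅ m : BSet L, (m.mem (fsN t) ⇨ (m.mem (nn k))ᶜ)) = bo (t ⊆ Finset.Ico k n)) ∧
  (∀ (n : ℕ) (t t' : Finset ℕ), agbV (nn n) (fsN t : BSet L) (fsN t') =
    bo (∀ m < n, (m ∈ t ↔ m ∈ t'))) ∧
  (∀ (n n' : ℕ), sucV (nn n' : BSet L) (nn n) = bo (n' = n + 1))

/-- Pairs. -/
def G_PAR : Prop := ∀ (L : Type) [CompleteBooleanAlgebra L],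
  (∀ z a b : BSet L, prV z a b = z.eq (kpr a b)) ∧
  (∀ a b c d : BSet L, (kpr a b).eq (kpr c d) = a.eq c ⊓ b.eq d) ∧
  (∀ f a b : BSet L, apV f a b = (kpr a b).mem f)

/-- The predicates are extensional, first part. -/
def G_EX1 : Prop := ∀ (L : Type) [CompleteBooleanAlgebra L],
  (∀ a : BSet L, BSet.Ext (fun x => subV x a) ∧ BSet.Ext (fun x => subV a x)) ∧
  (∀ f a : BSet L, BSet.Ext (fun x => apV x f a) ∧ BSet.Ext (fun x => apV f x a) ∧
    BSet.Ext (fun x => apV f a x)) ∧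
  (∀ a : BSet L, BSet.Ext (fun x => lstV x a) ∧ BSet.Ext (fun x => lstV a x)) ∧
  (∀ a b : BSet L, BSet.Ext (fun x => agbV x a b) ∧ BSet.Ext (fun x => agbV a x b) ∧
    BSet.Ext (fun x => agbV a b x)) ∧
  (∀ a : BSet L, BSet.Ext (fun x => sucV x a) ∧ BSet.Ext (fun x => sucV a x))

/-- Injections between classes depending on a parameter. -/
def G_EXJ : Prop := ∀ (L : Type) [CompleteBooleanAlgebra L] (P Q : BSet L → BSet L → L),
  (∀ a, BSet.Ext (fun x => P x a)) → (∀ a, BSet.Ext (fun x => Q x a)) →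
  BSet.Ext (fun x => injV (P x) (Q x))

/-- The predicates are extensional, second part. -/
def G_EX2 : Prop := ∀ (L : Type) [CompleteBooleanAlgebra L],
  (∀ a b : BSet L, BSet.Ext (fun x => codeV a x b) ∧ BSet.Ext (fun x => codeV a b x)) ∧
  (∀ a : BSet L, BSet.Ext (fun x => covV x a) ∧ BSet.Ext (fun x => covV a x)) ∧
  (∀ a : BSet L, BSet.Ext (fun x => realsV a x) ∧ BSet.Ext (fun x => nullV a x) ∧
    BSet.Ext (fun x => famV a x) ∧ BSet.Ext (fun x => crV a x))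

/-- Names of reals. -/
def G_REA : Prop := ∀ (S : Sys) (L : Type) [CompleteBooleanAlgebra L] (e : Set (Pt S) → L),
  AlgI S L e →
  (∀ w : Pt S → ℕ → Bool, Measurable w → (∀ n : ℕ, (nn n).mem (rnN e w) = e {z | w z n = true}) ∧
    subV (rnN e w) omN = ⊤) ∧
  (∀ w w' : Pt S → ℕ → Bool, Measurable w → Measurable w' →
    (rnN e w).eq (rnN e w') = e {z | w z = w' z}) ∧
  (∀ x : BSet L, ∃ w : Pt S → ℕ → Bool, Measurable w ∧ subV x omN ≤ x.eq (rnN e w)) ∧
  (∀ w : Pt S → ℕ → Bool, Measurable w → ∀ (t : Finset ℕ) (n : ℕ),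
    agbV (nn n) (fsN t) (rnN e w) = e {z | ∀ m < n, (m ∈ t ↔ w z m = true)})

/-- The names of the null sets. -/
def G_NSN : Prop := ∀ (S : Sys) (L : Type) [CompleteBooleanAlgebra L] (e : Set (Pt S) → L),
  AlgI S L e → ∀ c : Pt S → ℕ → Bool, Measurable c →
  realsV omN (NsN e c) = ⊤ ∧
  ∀ w : Pt S → ℕ → Bool, Measurable w → (rnN e w).mem (NsN e c) = e {z | w z ∈ Nset (c z)}

/-- Membership in the name of a code. -/
def G_CDN : Prop := ∀ (S : Sys) (L : Type) [CompleteBooleanAlgebra L] (e : Set (Pt S) → L),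
  AlgI S L e → ∀ F : Pt S → Set (Finset ℕ), (∀ t, MeasurableSet {z | t ∈ F z}) →
  (∀ t : BSet L, t.mem (cdN e F) = ⨆ t₀ : Finset ℕ, (e {z | t₀ ∈ F z} ⊓ t.eq (fsN t₀))) ∧
  ∀ t : Finset ℕ, (fsN t : BSet L).mem (cdN e F) = e {z | t ∈ F z}

/-- An injection into the subsets of `n \ k` bounds the number of elements. -/
def G_IJ1 : Prop := ∀ (L : Type) [CompleteBooleanAlgebra L] (P : BSet L → L) (n k : ℕ)
  (T : Finset (Finset ℕ)), 2 ^ (n - k) < T.card →
  injV P (fun u => subV u (nn n) ⊓ ⨅ m : BSet L, (m.mem u ⇨ (m.mem (nn k))ᶜ)) ⊓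
    (⨅ t ∈ T, P (fsN t)) = ⊥

/-- The injections for a good code. -/
def G_IJ2 : Prop := ∀ (S : Sys) (L : Type) [CompleteBooleanAlgebra L] (e : Set (Pt S) → L),
  AlgI S L e → ∀ (k n : ℕ) (F : Pt S → Set (Finset ℕ)), (∀ t, MeasurableSet {z | t ∈ F z}) →
  (∀ z, Good k (F z)) → k ≤ n →
  injV (fun t => t.mem (cdN e F) ⊓ lstV t (nn n))
    (fun u => subV u (nn n) ⊓ ⨅ m : BSet L, (m.mem u ⇨ (m.mem (nn k))ᶜ)) = ⊤

/-- Subsets of null sets. -/
def G_MNO : Prop := ∀ (L : Type) [CompleteBooleanAlgebra L] (o Y M : BSet L),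
  realsV o Y ⊓ (nullV o M ⊓ subV Y M) ≤ nullV o Y

/-- From a null set to codes. -/
def G_NU1 : Prop := ∀ (S : Sys) (L : Type) [CompleteBooleanAlgebra L] (e : Set (Pt S) → L),
  AlgI S L e → ∀ M : BSet L, ∃ F : ℕ → Pt S → Set (Finset ℕ),
    (∀ k t, MeasurableSet {z | t ∈ F k z}) ∧
    (∀ k, nullV omN M ≤ e {z | Good k (F k z)}) ∧
    ∀ (w : Pt S → ℕ → Bool), Measurable w → ∀ k,
      nullV omN M ⊓ (rnN e w).mem M ≤ e {z | w z ∈ OpenOf (F k z)}

/-- From codes to a null set. -/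
def G_NU2 : Prop := ∀ (S : Sys) (L : Type) [CompleteBooleanAlgebra L] (e : Set (Pt S) → L),
  AlgI S L e → ∀ (M : BSet L) (F : ℕ → Pt S → Set (Finset ℕ)), realsV omN M = ⊤ →
    (∀ k t, MeasurableSet {z | t ∈ F k z}) → (∀ k z, Good k (F k z)) →
    (∀ (w : Pt S → ℕ → Bool), Measurable w → ∀ k,
      (rnN e w).mem M ≤ e {z | w z ∈ OpenOf (F k z)}) → nullV omN M = ⊤

/-- The names of families. -/
def G_FAM : Prop := ∀ (L : Type) [CompleteBooleanAlgebra L] (ι : Type) (x : ι → BSet L),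
  (∀ y : BSet L, y.mem (famN x) = ⨆ i, y.eq (x i)) ∧
  (∀ φ : BSet L → L, BSet.Ext φ → (⨅ y : BSet L, (y.mem (famN x) ⇨ φ y)) = ⨅ i, φ (x i)) ∧
  (∀ φ : BSet L → L, BSet.Ext φ → (⨆ y : BSet L, (y.mem (famN x) ⊓ φ y)) = ⨆ i, φ (x i))

/-- Below `b`, the set `Y` injects into an indexed family: then it is covered by an indexed
family. -/
def G_IN2 : Prop := ∀ (L : Type) [CompleteBooleanAlgebra L] (ι : Type) (x : ι → BSet L)
  (Y : BSet L) (b : L), b ≤ injV (fun y => y.mem Y) (fun M => M.mem (famN x)) →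
  ∃ (M : ι → BSet L) (c : ι → L), (∀ i, c i ≤ b ⊓ (M i).mem Y) ∧
    ∀ y : BSet L, b ⊓ y.mem Y ≤ ⨆ i, (c i ⊓ y.eq (M i))

/-- A set of reals which injects into an indexed family is covered by an indexed family of
reals. -/
def G_IN1 : Prop := ∀ (S : Sys) (L : Type) [CompleteBooleanAlgebra L] (e : Set (Pt S) → L),
  AlgI S L e → ∀ (ι : Type) (x : ι → BSet L) (Y : BSet L) (b : L),
  b ≤ realsV omN Y → b ≤ injV (fun y => y.mem Y) (fun M => M.mem (famN x)) →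
  ∃ w : ι → Pt S → ℕ → Bool, (∀ i, Measurable (w i)) ∧
    ∀ y : BSet L, b ⊓ y.mem Y ≤ ⨆ i, y.eq (rnN e (w i))

/-- The named null sets are null sets. -/
def G_NU0 : Prop := ∀ (S : Sys) (L : Type) [CompleteBooleanAlgebra L] (e : Set (Pt S) → L),
  AlgI S L e → ∀ c : Pt S → ℕ → Bool, Measurable c → nullV omN (NsN e c) = ⊤

/-- What a null set with small support does not contain. -/
def G_AVO : Prop := ∀ (S : Sys) (L : Type) [CompleteBooleanAlgebra L] (e : Set (Pt S) → L),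
  AlgI S L e → ∀ M : BSet L, ∃ Γ : Set S.C, Γ.Countable ∧
    (∀ ξ, ξ ∉ Γ → S.gen ξ → (∀ c, ¬ S.see ξ c) →
      nullV omN M ⊓ subV (NsN e fun z => z ξ) M = ⊥) ∧
    ∀ c₀, ¬ S.gen c₀ → (∀ c ∈ Γ, c ≠ c₀ ∧ ¬ S.see c c₀) →
      nullV omN M ⊓ (rnN e fun z => z c₀).mem M = ⊥

/-- Every real is in many named null sets. -/
def G_CAP : Prop := ∀ (S : Sys) (L : Type) [CompleteBooleanAlgebra L] (e : Set (Pt S) → L),
  AlgI S L e → ∀ w : Pt S → ℕ → Bool, Measurable w → ∃ Γ : Set S.C, Γ.Countable ∧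
    ∀ q, S.gen q → (∀ c ∈ Γ, S.see q c) → (rnN e w).mem (NsN e fun z => z q) = ⊤

/-- The three inequalities. -/
def G_ADD : Prop := ∀ (W A B D : Type) [LinearOrder A] [WellFoundedLT A] [LinearOrder B],
  Sizes W A B D → ∀ (L : Type) [CompleteBooleanAlgebra L] (e : Set (Pt (Sy A B D)) → L),
  AlgI (Sy A B D) L e → addV (omN : BSet L) = ⊤

def G_NON : Prop := ∀ (W A B D : Type) [LinearOrder A] [WellFoundedLT A] [LinearOrder B],
  Sizes W A B D → ∀ (L : Type) [CompleteBooleanAlgebra L] (e : Set (Pt (Sy A B D)) → L),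
  AlgI (Sy A B D) L e → nonV (omN : BSet L) = ⊤

def G_CC : Prop := ∀ (W A B D : Type) [LinearOrder A] [WellFoundedLT A] [LinearOrder B],
  Sizes W A B D → ∀ (L : Type) [CompleteBooleanAlgebra L] (e : Set (Pt (Sy A B D)) → L),
  AlgI (Sy A B D) L e → ccV (omN : BSet L) = ⊤

/-- Definable predicates: `φ` has the truth value `P` in all structures and the Boolean value `V`
in all Boolean-valued universes. -/
def Dfn (P : ∀ N : Type 1, (N → N → Prop) → (ℕ → N) → Prop)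
    (V : ∀ (L : Type) [CompleteBooleanAlgebra L], (ℕ → BSet L) → L) : Prop :=
  ∃ φ : Fml, (∀ (N : Type 1) (E : N → N → Prop) (w : ℕ → N), (φ.sat E w ↔ P N E w)) ∧
    ∀ (L : Type) [CompleteBooleanAlgebra L] (w : ℕ → BSet L), φ.val w = V L w

/-- Injections between definable classes. -/
def G_SYI : Prop := ∀ (m : ℕ) (P Q : ∀ N : Type 1, (N → N → Prop) → (ℕ → N) → N → Prop)
  (PV QV : ∀ (L : Type) [CompleteBooleanAlgebra L], (ℕ → BSet L) → BSet L → L),
  (∀ (N : Type 1) (E : N → N → Prop) (w w' : ℕ → N), (∀ i < m, w i = w' i) →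
    P N E w = P N E w' ∧ Q N E w = Q N E w') →
  (∀ (L : Type) [CompleteBooleanAlgebra L] (w w' : ℕ → BSet L), (∀ i < m, w i = w' i) →
    PV L w = PV L w' ∧ QV L w = QV L w') →
  (∀ k, Dfn (fun N E w => P N E w (w k)) (fun L _ w => PV L w (w k))) →
  (∀ k, Dfn (fun N E w => Q N E w (w k)) (fun L _ w => QV L w (w k))) →
  Dfn (fun N E w => Inj E (P N E w) (Q N E w)) (fun L _ w => injV (PV L w) (QV L w))

/-- Null sets are definable. -/
def G_SYA : Prop := ∀ i j : ℕ, Dfn (fun N E w => IsNull E (w i) (w j))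
  (fun L _ w => nullV (w i) (w j))

/-- The formula. -/
def G_SYN : Prop := Dfn (fun N E _ => Sep E) (fun L _ _ => sepV L)

end NU
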